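import Pool.Agent.R531.Rtmp.Mem

/-!
# The randomization test for matched pairs is PP-complete

The class PP (`InPPc`, file `Pool/Agent/H578R2/Med/PP.lean`): `x` is in `L` iff more than half of the
strings of length `p(|x|)` are accepted together with `x` by a polynomial-time verifier.

The reduction. By the parsimonious form of the theorem of Cook and Levin, a language in PP asks
whether a formula `φ` has at least `K` satisfying assignments. These assignments are counted by the
subfamilies of a list `W` of `n` positive integers with sum `t`. Let `s` be the sum of `W`. Consider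
the elements of `W`, `2 t + 1`, `s + 1` and `s + t + 1`, where only the last one comes from a pair
with `x > y`, so that `T = s + t + 1`. Then `N = 2 ^ (n + 1) + 1 + #(subfamilies of W with sum t)`.
-/

set_option autoImplicit false

namespace Pool.Agent.Results.MP_a7edd4_lc.CompleteForPP

open Pool.Agent.NPC Pool.Agent.NPC.Med Pool.Agent.R531.Rtmp

/-- **RTMP is complete for PP under polynomial-time many-one reductions.** Hence it is in NP if and
only if `PP ⊆ NP`; and in that case NP is closed under complements. -/
theorem result :
    InPPc (lang RTMP) ∧
    (∀ L : Set (List Bool), InPPc L → ∃ f : List Bool → List (ℤ × ℤ) × ℕ,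
      PolyTime (fun x => bits (f x)) ∧ ∀ x, x ∈ L ↔ RTMP (f x)) ∧
    (InNPP RTMP ↔ ∀ L : Set (List Bool), InPPc L → InNP L) ∧
    (InNPP RTMP → ∀ L : Set (List Bool), InNP L → InNP Lᶜ) :=
  ⟨rtmp_inPP, fun L hL => (rtmp_hard L hL).imp fun _ h => h.2, rtmp_inNP, rtmp_coNP⟩

end Pool.Agent.Results.MP_a7edd4_lc.CompleteForPP
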